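import Pool.Agent.Y135.SM.Gen

/-!
# The permutations of multiplicity at least three are not closed upward under pattern containment

`X_w` for `w = 4567312` has multiplicity `2` at the identity point, and `w` contains the pattern
`p = 345612` for which `X_p` has multiplicity `3` there.
-/

set_option autoImplicit false

open Pool.Agent.TH151.SchubMult Pool.Agent.Y135.SM MvPolynomial

namespace Pool.Agent.Results.MP_5035a9_ag.NotClosedUpward

/-- `v` belongs to `M₃`: the Hilbert-Samuel multiplicity of `X_v` at `e_id` is at least `3`. -/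
def InM3 {n : ℕ} (v : Equiv.Perm (Fin n)) : Prop :=
  ∃ e : ℝ, IsMult v e ∧ 3 ≤ e

theorem result : ∃ (w : Equiv.Perm (Fin 7)) (p : Equiv.Perm (Fin 6)),
    (⇑w = ![3, 4, 5, 6, 2, 0, 1]) ∧ (⇑p = ![2, 3, 4, 5, 0, 1]) ∧ ContainsPattern w p ∧
      InM3 p ∧ ¬ InM3 w ∧ IsMult p 3 ∧ IsMult w 2 := by
  have hw := wperm_fam (N := 6) (b := 3) (by omega) (by omega) le_rfl
  have hp := wperm_fam (N := 5) (b := 2) (by omega) le_rfl (by omega)
  have h1 : IsMult (wperm 6 3 (by omega) (by omega) le_rfl) 2 := by
    have := isMult_band (s := 2) (N := 6) (b := 3) (by omega) (by omega)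
      (schubertIdeal_eq (by omega) le_rfl (by omega) hw) (by omega) (by omega)
    exact_mod_cast this
  have h2 : IsMult (wperm 5 2 (by omega) le_rfl (by omega)) 3 := by
    have := isMult_band (s := 3) (N := 5) (b := 2) (by omega) (by omega)
      (schubertIdeal_eq le_rfl (by omega) (by omega) hp) (by omega) (by omega)
    exact_mod_cast this
  refine ⟨wperm 6 3 (by omega) (by omega) le_rfl, wperm 5 2 (by omega) le_rfl (by omega),
    ?_, ?_, wperm_contains 2 le_rfl, ⟨3, h2, le_rfl⟩, ?_, h2, h1⟩
  · funext j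
    apply Fin.ext
    rw [wperm_val]
    fin_cases j <;> rfl
  · funext j
    apply Fin.ext
    rw [wperm_val]
    fin_cases j <;> rfl
  · rintro ⟨e, he, he3⟩
    rw [isMult_unique he h1] at he3
    norm_num at he3

end Pool.Agent.Results.MP_5035a9_ag.NotClosedUpward
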